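import Pool.Agent.H.MP_47c171_nt.D

set_option autoImplicit false

namespace Pool.Agent.Results.MP_47c171_nt.Asymp

open Pool.Agent.H.MP_47c171_nt Finset Filter Topology

open Classical in
noncomputable def c (N : ℕ) : ℕ := ((Icc 1 N).powerset.filter Adm).sup card

theorem result : Tendsto (fun N : ℕ => (c N : ℝ) / N) atTop (𝓝 1) := by
  classical
  refine tendsto_order.2 ⟨fun a ha => ?_, fun a ha => Eventually.of_forall fun N => ?_⟩
  · obtain ⟨K, hK⟩ := exists_nat_gt (4 / (1 - a) + 3)
    have a0 : 0 < 1 - a := by linarith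
    have p : 0 < 4 / (1 - a) := by positivity
    have K3 : (3 : ℝ) ≤ K := by linarith
    obtain ⟨N₀, h⟩ := main K (by exact_mod_cast K3)
    filter_upwards [eventually_ge_atTop N₀, eventually_gt_atTop 0] with N h1 h2
    obtain ⟨A, A1, A2, A3⟩ := h N h1
    have N0 : (0 : ℝ) < N := by exact_mod_cast h2
    have b1 : (A.card : ℝ) ≤ c N := by
      exact_mod_cast le_sup (f := card) (mem_filter.2 ⟨mem_powerset.2 A1, A2⟩)
    have b2 : (N : ℝ) ≤ A.card + 4 * (N / K) := by
      have := (Rat.cast_le (K := ℝ)).2 A3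
      push_cast at this
      exact this
    have b3 : 4 / (K : ℝ) < 1 - a := by
      rw [div_lt_iff₀ (by linarith), mul_comm, ← div_lt_iff₀ a0]
      linarith
    rw [lt_div_iff₀ N0]
    have := mul_lt_mul_of_pos_right b3 N0
    have e : 4 / (K : ℝ) * N = 4 * (N / K) := by ring
    linarith
  · refine lt_of_le_of_lt (div_le_one_of_le₀ ?_ (Nat.cast_nonneg _)) ha
    exact_mod_cast Finset.sup_le fun A hA =>
      (card_le_card (mem_powerset.1 (mem_filter.1 hA).1)).trans (by simp)

end Pool.Agent.Results.MP_47c171_nt.Asymp
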